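import Pool.Agent.H.MP_1f55c7_lc.C

namespace Pool.Agent.Results.MP_1f55c7_lc.Q1

open Pool.Agent.H.MP_1f55c7_lc

theorem result : ∃ a : Fm, a.DF ∧ Prov L2 a ∧ ¬ Prov L1 a :=
  ⟨th 1, th_df 1, th_prov 1, sep⟩

end Pool.Agent.Results.MP_1f55c7_lc.Q1
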