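import Pool.Agent.H.MP_1f55c7_lc.C

namespace Pool.Agent.Results.MP_1f55c7_lc.Q2

open Pool.Agent.H.MP_1f55c7_lc

theorem result : FinAx L1 ∧ ¬ FinAx L2 := ⟨fin1, nfin2⟩

end Pool.Agent.Results.MP_1f55c7_lc.Q2
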